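import Pool.Agent.Results.MP_cda23d_nt.ExplicitWithoutSL
import Pool.Agent.X123.ML.Base

/-!
# Uniformity for the elliptic curves with invariant near almost every real number

Let `N ≥ 5` and `τ > 0`, and let `s` be any map from the rational numbers to a metric space `X`, for
example the embedding into the real or the `q`-adic numbers. For all `y` in `X` outside a set of
Hausdorff dimension at most `(5 / N) / τ` there are `c > 0` and `T` such that for EVERY elliptic curve
over `ℚ` whose invariant `j` has height `H > T` and satisfies `|y - s(j)| ≤ H ^ (-τ)` and for ALL primes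
`p` with `N ≤ p ≤ exp (c √(log H))` the image of the Galois group in the automorphisms of the `p`-torsion
contains all automorphisms of determinant one. For example, for almost all real `y` this holds for
all curves with `|y - j| ≤ H(j) ^ (-1/7)` and `N = 37`, as `5 / 37 < 1 / 7`; every real `y` is approximated
to within `H(j) ^ (-2)` by infinitely many rational numbers `j`.
-/

set_option autoImplicit false

open scoped ENNReal

namespace Pool.Agent.Results.MP_cda23d_nt.InvariantsNearTargets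

open ExplicitWithoutSL (ContainsSL invariant ExceptionalInvariants)
open Pool.Agent.X123.ML

/-- the height of a rational number -/
def ht (j : ℚ) : ℕ := max j.num.natAbs j.den

lemma one_le_ht (j : ℚ) : (1 : ℝ) ≤ (ht j : ℝ) := by
  have h1 : 1 ≤ ht j := le_trans (Nat.one_le_iff_ne_zero.2 j.den_nz) (le_max_right _ _)
  exact_mod_cast h1

/-- the exceptional invariants, of all heights -/
def Bad (N : ℕ) (c : ℝ) : Set ℚ :=
  {j | ∃ A B : ℚ, 4 * A ^ 3 + 27 * B ^ 2 ≠ 0 ∧ invariant A B = j ∧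
      ∃ p : ℕ, p.Prime ∧ N ≤ p ∧ (p : ℝ) ≤ Real.exp (c * Real.sqrt (Real.log (ht j : ℝ))) ∧
        ¬ ContainsSL A B p}

lemma cnt_bad (ε : ℝ) (hε : 0 < ε) : ∃ c : ℝ, 0 < c ∧ ∀ N : ℕ, 5 ≤ N →
    Cnt (Bad N c) (fun j => Real.log (ht j : ℝ)) (5 / (N : ℝ) + ε) := by
  obtain ⟨C, c, hc, h⟩ := ExplicitWithoutSL.result ε hε
  refine ⟨c, hc, fun N hN => ?_⟩
  intro δ hδ
  refine ⟨max C 0, fun t ht0 => ?_⟩
  obtain ⟨h1, h2⟩ := (h N hN).1 (Real.exp t) (Real.one_le_exp ht0)
  have hsub : {x : ℚ | x ∈ Bad N c ∧ Real.log (ht x : ℝ) ≤ t} ⊆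
      ExceptionalInvariants N c (Real.exp t) := by
    rintro j ⟨⟨A, B, hD, hj, p, hp, hNp, hpX, hno⟩, hjt⟩
    have hpos : (0 : ℝ) < (ht j : ℝ) := lt_of_lt_of_le one_pos (one_le_ht j)
    have hle : (ht j : ℝ) ≤ Real.exp t := (Real.log_le_iff_le_exp hpos).1 hjt
    have hn : (j.num.natAbs : ℝ) ≤ (ht j : ℝ) := by exact_mod_cast le_max_left j.num.natAbs j.den
    have hd : (j.den : ℝ) ≤ (ht j : ℝ) := by exact_mod_cast le_max_right j.num.natAbs j.den
    have ha : |(j.num : ℝ)| = (j.num.natAbs : ℝ) := by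
      rw [← Int.cast_abs, Int.abs_eq_natAbs]
      simp
    refine ⟨by rw [ha]; exact hn.trans hle, hd.trans hle, A, B, hD, hj, p, hp, hNp,
      hpX.trans (Real.exp_le_exp.2 (mul_le_mul_of_nonneg_left (Real.sqrt_le_sqrt ?_) hc.le)), hno⟩
    rw [Real.log_exp]
    exact hjt
  refine ⟨h1.subset hsub, (Nat.cast_le.2 (Set.ncard_le_ncard hsub h1)).trans (h2.trans ?_)⟩
  rw [← Real.exp_mul]
  refine mul_le_mul (le_max_left _ _) (Real.exp_le_exp.2 ?_) (Real.exp_pos _).le (le_max_right _ _)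
  nlinarith

/-- **Theorem.** Let `N ≥ 5`, `τ > 0` and let `s : ℚ → X` be a map to a metric space. There is a set
`E ⊆ X` of Hausdorff dimension at most `(5 / N) / τ` such that for every `y` outside `E` there are
`c > 0` and `T` with the following property. For every elliptic curve `y² = x³ + Ax + B` over `ℚ` whose
invariant `j` has height `H > T` and satisfies `|y - s(j)| ≤ H ^ (-τ)`, and for every prime `p` with
`N ≤ p ≤ exp (c √(log H))`, the image of the Galois group contains all automorphisms of the `p`-torsion of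
determinant one. -/
theorem result (N : ℕ) (hN : 5 ≤ N) (τ : ℝ) (hτ : 0 < τ) (X : Type) [MetricSpace X] (s : ℚ → X) :
    ∃ E : Set X, dimH E ≤ ENNReal.ofReal (5 / (N : ℝ) / τ) ∧
      ∀ y : X, y ∉ E → ∃ c T : ℝ, 0 < c ∧
        ∀ A B : ℚ, 4 * A ^ 3 + 27 * B ^ 2 ≠ 0 → T < (ht (invariant A B) : ℝ) →
          dist y (s (invariant A B)) ≤ (ht (invariant A B) : ℝ) ^ (-τ) →
            ∀ p : ℕ, p.Prime → N ≤ p →
              (p : ℝ) ≤ Real.exp (c * Real.sqrt (Real.log (ht (invariant A B) : ℝ))) →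
                ContainsSL A B p := by
  classical
  have hk : ∀ k : ℕ, (0 : ℝ) < 1 / ((k : ℝ) + 1) := fun k => by positivity
  choose c hc0 hc using fun k : ℕ => cnt_bad (1 / ((k : ℝ) + 1)) (hk k)
  have hdim : ∀ k : ℕ, ∃ E : Set X,
      dimH E ≤ ENNReal.ofReal ((5 / (N : ℝ) + 1 / ((k : ℝ) + 1)) / τ) ∧ ∀ y : X, y ∉ E → ∀ _i : Unit,
        {x : ℚ | x ∈ Bad N (c k) ∧
          dist y (s x) ≤ Real.exp (-(τ * Real.log (ht x : ℝ)))}.Finite := fun k =>
    pos_dim (fun _ : Unit => Bad N (c k)) (fun x : ℚ => Real.log (ht x : ℝ))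
      (fun _ x _ => Real.log_nonneg (one_le_ht x)) (by positivity) hτ
      (fun _ => hc k N hN) s
  choose E hE1 hE2 using hdim
  refine ⟨⋂ k, E k, ?_, fun y hy => ?_⟩
  · have ht : Filter.Tendsto (fun k : ℕ => ENNReal.ofReal ((5 / (N : ℝ) + 1 / ((k : ℝ) + 1)) / τ))
        Filter.atTop (nhds (ENNReal.ofReal ((5 / (N : ℝ) + 0) / τ))) :=
      ENNReal.tendsto_ofReal ((tendsto_const_nhds.add tendsto_one_div_add_atTop_nhds_zero_nat).div_const τ)
    rw [add_zero] at ht
    exact ge_of_tendsto' ht fun k => (dimH_mono (Set.iInter_subset _ k)).trans (hE1 k)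
  · rw [Set.mem_iInter] at hy
    push Not at hy
    obtain ⟨k, hyk⟩ := hy
    obtain ⟨T, hT⟩ := Set.Finite.bddAbove ((hE2 k y hyk ()).image (fun x : ℚ => (ht x : ℝ)))
    refine ⟨c k, T, hc0 k, fun A B hAB hlt hd p hp hNp hpX => ?_⟩
    by_contra hno
    refine absurd (hT ?_) (not_le.2 hlt)
    refine ⟨invariant A B, ⟨⟨A, B, hAB, rfl, p, hp, hNp, hpX, hno⟩, ?_⟩, rfl⟩
    exact hd.trans (le_of_eq (exp_eq_pow (lt_of_lt_of_le one_pos (one_le_ht _)) τ).symm)

end Pool.Agent.Results.MP_cda23d_nt.InvariantsNearTargets
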