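import Pool.Agent.X295.GalI

/-!
# MP_cda23d_nt: families of elliptic curves with several parameters

Let `j = F/G` be a rational function over `ℚ` in `q` variables, and `N ≥ 5`.

(1) If `j` is not a polynomial, then for all but `O(H^(q - 1 + deg G / N + ε))` of the `≍ H^q` integral vectors `u`
with `|u_j| ≤ H` and `G(u) ≠ 0` the following holds: for EVERY elliptic curve with the invariant `j(u)` and for ALL
primes `p ≥ N`, `p` divides the order of the image of the Galois group in the automorphism group of the `p`-torsion
(so the image is not contained in the normaliser of a Cartan subgroup).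

(2) If `j` is not constant, the same holds for all but `O(H^(q + max(deg F, deg G) / N + ε))` of the `≍ H^(q + 1)`
rational vectors of height at most `H`.

Both statements hold more generally for all elliptic curves over all number fields of degree at most `n` with the
invariant `j(u)`, if `n < N` and `8n < N² - 1`.

Proof. Let `g` be an irreducible factor of the denominator of `j`, and let `u` be integral.  By elimination
`α g + β E = ρ` for a non zero polynomial `ρ` which does not contain one of the variables of `g`; here `E` is the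
product of the numerator and of the rest of the denominator.  So at the primes `l` (outside a finite set) which do
not divide `ρ(u)` the valuation of `j(u)` is `- μ` times that of `g(u)`.  If the order of the image is prime to
`p`, then this valuation is divisible by `p` (the local theory of `Pool.Agent.Y673.Loc`), and so `g(u)` is a `p`-th
power up to divisors of a power of `ρ(u)`.  Few values of `g` on a line in the direction of this variable are
of this form, uniformly in the line.
-/

set_option autoImplicit false

open WeierstrassCurve NumberField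
open scoped Classical

namespace Pool.Agent.Results.MP_cda23d_nt.MultiParameterFamilies

section
variable {L : Type} [Field L]

/-- The curve `y² = x³ + Ax + B` over `L`. -/
def curve (A B : L) : WeierstrassCurve L := ⟨0, 0, 0, A, B⟩

/-- The group of its points over the algebraic closure of `L`. -/
abbrev Points (A B : L) : Type := ((curve A B).baseChange (AlgebraicClosure L)).toAffine.Point

/-- The action of an `L`-automorphism `σ` of the algebraic closure on the points. -/
noncomputable def galois (A B : L) (σ : AlgebraicClosure L ≃ₐ[L] AlgebraicClosure L) :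
    Points A B →+ Points A B :=
  WeierstrassCurve.Affine.Point.map (σ : AlgebraicClosure L →ₐ[L] AlgebraicClosure L)

/-- Some `σ` acts on the `p`-torsion with order `p`: its `p`-th power acts trivially on the
`p`-torsion, and `σ` does not.  For a prime `p` this says that the order of the image of the Galois
group in the automorphism group of the `p`-torsion is divisible by `p`. -/
def OrderDivisible (A B : L) (p : ℕ) : Prop :=
  ∃ σ : AlgebraicClosure L ≃ₐ[L] AlgebraicClosure L,
    (∀ P : Points A B, p • P = 0 → galois A B (σ ^ p) P = P) ∧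
    ∃ P : Points A B, p • P = 0 ∧ galois A B σ P ≠ P

/-- The invariant of `y² = x³ + Ax + B`. -/
noncomputable def jInvariant (A B : L) : L := 6912 * A ^ 3 / (4 * A ^ 3 + 27 * B ^ 2)

end

/-- `j` is the invariant of an elliptic curve over a number field of degree at most `n` such that, for
some prime `p ≥ N`, the order of the image of the Galois group of the field in the automorphism group of
the `p`-torsion is not divisible by `p`. -/
def Exceptional (n N : ℕ) (j : ℚ) : Prop :=
  ∃ (L : Type) (_ : Field L) (_ : NumberField L), Module.finrank ℚ L ≤ n ∧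
    ∃ A B : L, 4 * A ^ 3 + 27 * B ^ 2 ≠ 0 ∧ jInvariant A B = (j : L) ∧
      ∃ p : ℕ, p.Prime ∧ N ≤ p ∧ ¬ OrderDivisible A B p

/-- The exceptional integral parameters `u` in the box `|u_j| ≤ H`. -/
def IntegralExceptions {q : ℕ} (F G : MvPolynomial (Fin q) ℚ) (n N H : ℕ) : Set (Fin q → ℤ) :=
  {u | (∀ j, |u j| ≤ H) ∧ MvPolynomial.eval (fun j => (u j : ℚ)) G ≠ 0 ∧
    Exceptional n N (MvPolynomial.eval (fun j => (u j : ℚ)) F /
      MvPolynomial.eval (fun j => (u j : ℚ)) G)}

/-- The height of `t ∈ ℚ^q` is at most `H`: `t = (x_1 / x_0, …, x_q / x_0)` with integers `x_i`,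
`|x_i| ≤ H`. -/
def HeightLe {q : ℕ} (H : ℕ) (t : Fin q → ℚ) : Prop :=
  ∃ x : Fin (q + 1) → ℤ, x 0 ≠ 0 ∧ (∀ i, |x i| ≤ H) ∧ ∀ j, t j = x j.succ / x 0

/-- The exceptional rational parameters `t` of height at most `H`. -/
def RationalExceptions {q : ℕ} (F G : MvPolynomial (Fin q) ℚ) (n N H : ℕ) : Set (Fin q → ℚ) :=
  {t | HeightLe H t ∧ MvPolynomial.eval t G ≠ 0 ∧
    Exceptional n N (MvPolynomial.eval t F / MvPolynomial.eval t G)}

/-- **Few exceptions in families with several parameters.** -/
theorem result (q : ℕ) (F G : MvPolynomial (Fin q) ℚ) (hG : G ≠ 0) (n N : ℕ) (hN : 5 ≤ N)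
    (hn : n < N) (hn' : 8 * n < N ^ 2 - 1) (ε : ℝ) (hε : 0 < ε) :
    (¬ G ∣ F → ∃ C : ℝ, ∀ H : ℕ, 1 ≤ H → (IntegralExceptions F G n N H).Finite ∧
      ((IntegralExceptions F G n N H).ncard : ℝ) ≤
        C * (H : ℝ) ^ ((q : ℝ) - 1 + G.totalDegree / N + ε)) ∧
    ((∀ c : ℚ, F ≠ MvPolynomial.C c * G) → ∃ C : ℝ, ∀ H : ℕ, 1 ≤ H →
      (RationalExceptions F G n N H).Finite ∧
      ((RationalExceptions F G n N H).ncard : ℝ) ≤
        C * (H : ℝ) ^ ((q : ℝ) + (max F.totalDegree G.totalDegree : ℕ) / N + ε)) := by
  constructor
  · intro hFG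
    obtain ⟨C, hC⟩ := Pool.Agent.X295.Gal.mainA F G hG hFG n N hN hn hn' ε hε
    rw [Module.finrank_self, one_mul] at hC
    refine ⟨C, fun H hH => hC H hH _ ?_⟩
    rintro u ⟨h1, h2, L, iF, iN, h3, A, B, h4, h5, h6⟩
    refine ⟨h1, h2, L, iF, iN, inferInstance, h3, A, B, h4, ?_, h6⟩
    rw [eq_ratCast]
    exact h5
  · intro hFG
    obtain ⟨C, hC⟩ := Pool.Agent.X295.Gal.mainA_rat F G hG hFG n N hN hn hn' ε hε
    rw [Module.finrank_self, one_mul] at hC
    refine ⟨C, fun H hH => hC H hH _ ?_⟩
    rintro t ⟨⟨x, hx⟩, h2, L, iF, iN, h3, A, B, h4, h5, h6⟩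
    have e : ∀ f : MvPolynomial (Fin q) ℚ, Pool.Agent.X295.Gal.rval t f = MvPolynomial.eval t f := by
      intro f
      unfold Pool.Agent.X295.Gal.rval
      simp only [Rat.cast_id]
    refine ⟨⟨x, hx⟩, by rw [e]; exact h2, L, iF, iN, inferInstance, h3, A, B, h4, ?_, h6⟩
    rw [eq_ratCast, e, e]
    exact h5

end Pool.Agent.Results.MP_cda23d_nt.MultiParameterFamilies
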