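import Pool.Agent.Results.MP_cda23d_nt.InvariantWindows
import Pool.Agent.X16.NW.E

/-!
# Uniformity for all elliptic curves with invariant of height near real powers of almost all real numbers

For each `0 ≤ θ < 1` there are `N` and `c > 0` such that for each sequence `κ_n` with `κ_n / log n → ∞` and almost all real
`t > 1`, for all but finitely many `n`, ALL elliptic curves over `ℚ` whose invariant has height `H` with
`|H - t ^ κ_n| ≤ t ^ (κ_n θ)` and ALL primes `p` with `N ≤ p ≤ exp (c √(log H))`: the order of the image of the Galois group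
in `Aut(E[p])` is divisible by `p`. The same with `n ^ t` for almost all `t` larger than any bound `> 1 / (1 - θ)`, and a
bound for the dimension of the exceptional set for general expanding families.
-/

set_option autoImplicit false

open WeierstrassCurve

namespace Pool.Agent.Results.MP_cda23d_nt.RealPowers

open Filter Topology MeasureTheory
open InvariantWindows (invariant ht OrderDivisible Exc count)

/-- the exponent of convergence of the sequence `w` is at most `τ` -/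
def ExpLe (w : ℕ → ℝ) (τ : ℝ) : Prop := ∀ p : ℝ, τ < p → Summable (fun n : ℕ => (w n) ^ (-p))

/-- `f` is an expanding family on `I`: for all large `n`, `f_n ≥ w_n ≥ 1` on `I` for a sequence `w` with exponent of
convergence at most `τ`, and `f_n(u) - f_n(t) ≥ c f_n(t) (u - t)` for `t ≤ u` in `I`, with a fixed `c > 0`. -/
def Expanding (f : ℕ → ℝ → ℝ) (I : Set ℝ) (τ : ℝ) : Prop :=
  ∃ (w : ℕ → ℝ) (c : ℝ) (n₁ : ℕ), 0 < c ∧ ExpLe w τ ∧ ∀ n, n₁ ≤ n → 1 ≤ w n ∧ ∀ t ∈ I, w n ≤ f n t ∧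
    ∀ u ∈ I, t ≤ u → c * f n t * (u - t) ≤ f n u - f n t

/-- `I` is covered by countably many sets on which the family `f` is expanding -/
def LocExpanding (f : ℕ → ℝ → ℝ) (I : Set ℝ) (τ : ℝ) : Prop :=
  ∃ J : ℕ → Set ℝ, I ⊆ ⋃ A, J A ∧ ∀ A, Expanding f (J A) τ

/-- uniformity holds for ALL curves whose invariant has height `H` with `|H - y| ≤ y ^ θ`: for ALL rational numbers `A, B`
with `4A³ + 27B² ≠ 0` such that the height `H` of the invariant of `y² = x³ + Ax + B` satisfies this and ALL primes `p`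
with `N ≤ p ≤ exp (c √(log H))` the order of the image of the Galois group in `Aut(E[p])` is divisible by `p` -/
def Holds (N : ℕ) (c θ y : ℝ) : Prop :=
  ∀ A B : ℚ, 4 * A ^ 3 + 27 * B ^ 2 ≠ 0 → |(ht (invariant A B) : ℝ) - y| ≤ y ^ θ →
    ∀ p : ℕ, p.Prime → N ≤ p → (p : ℝ) ≤ Real.exp (c * Real.sqrt (Real.log (ht (invariant A B) : ℝ))) →
      OrderDivisible A B p

lemma finish {N : ℕ} {c θ y : ℝ} (h : ∀ e ∈ Exc N c, y ^ θ < |(ht e : ℝ) - y|) : Holds N c θ y := by
  intro A B hAB hw p hp hNp hpc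
  by_contra hcon
  exact absurd (h (invariant A B) ⟨A, B, hAB, rfl, p, hp, hNp, hpc, hcon⟩) (not_lt.2 hw)

/-- **Theorem.** 1. For every `ε > 0` there are `N` and `c > 0` such that for each family `f_n(t)` that is locally
expanding on a set `I` of real numbers with exponent of convergence `τ ≥ 0` and each `0 ≤ θ < 1` there is a set `E` of
Hausdorff dimension at most `(ε + τ) / (1 - θ)` such that for each `t ∈ I` outside `E` and all but finitely many `n`:
`Holds N c θ (f_n(t))`. The family `t ^ κ_n` is locally expanding on `t > 1` with exponent `0` if `κ_n / log n → ∞`, the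
family `n ^ t` on `t ≥ a` with exponent `1 / a`.

2. For each `0 ≤ θ < 1` there are `N` and `c > 0` such that for each sequence `κ_n` with `κ_n / log n → ∞`, for almost all
`t > 1` and all but finitely many `n`: `Holds N c θ (t ^ κ_n)`.

3. For each `0 ≤ θ < 1` and `a > 1 / (1 - θ)` there are `N` and `c > 0` such that for almost all `t > a` and all but
finitely many `n`: `Holds N c θ (n ^ t)`. -/
theorem result :
    ((∀ ε : ℝ, 0 < ε → ∃ (N : ℕ) (c : ℝ), 0 < c ∧
      ∀ (I : Set ℝ) (f : ℕ → ℝ → ℝ) (τ θ : ℝ), 0 ≤ τ → LocExpanding f I τ → 0 ≤ θ → θ < 1 →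
      ∃ E : Set ℝ, dimH E ≤ ENNReal.ofReal ((ε + τ) / (1 - θ)) ∧
        ∀ t ∈ I, t ∉ E → ∃ n₀ : ℕ, ∀ n : ℕ, n₀ ≤ n → Holds N c θ (f n t)) ∧
      (∀ κ : ℕ → ℝ, Tendsto (fun n : ℕ => κ n / Real.log n) atTop atTop →
        LocExpanding (fun n t => t ^ (κ n)) (Set.Ioi (1 : ℝ)) 0) ∧
      (∀ a : ℝ, 0 < a → LocExpanding (fun n t => (n : ℝ) ^ t) (Set.Ici a) (1 / a))) ∧
    (∀ θ : ℝ, 0 ≤ θ → θ < 1 → ∃ (N : ℕ) (c : ℝ), 0 < c ∧
      ∀ κ : ℕ → ℝ, Tendsto (fun n : ℕ => κ n / Real.log n) atTop atTop →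
        ∀ᵐ t : ℝ, 1 < t → ∃ n₀ : ℕ, ∀ n : ℕ, n₀ ≤ n → Holds N c θ (t ^ κ n)) ∧
    (∀ θ a : ℝ, 0 ≤ θ → θ < 1 → 1 / (1 - θ) < a → ∃ (N : ℕ) (c : ℝ), 0 < c ∧
      ∀ᵐ t : ℝ, a < t → ∃ n₀ : ℕ, ∀ n : ℕ, n₀ ≤ n → Holds N c θ ((n : ℝ) ^ t)) := by
  refine ⟨⟨fun ε hε => ?_, fun κ hκ => Pool.Agent.X16.NW.loc_rpow κ hκ,
    fun a ha => Pool.Agent.X16.NW.loc_npow a ha⟩, fun θ hθ0 hθ1 => ?_, fun θ a hθ0 hθ1 ha => ?_⟩
  · obtain ⟨N, c, hc, hcount⟩ := count ε hε
    refine ⟨N, c, hc, fun I f τ θ hτ hf hθ0 hθ1 => ?_⟩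
    obtain ⟨E, hE1, hE2⟩ := Pool.Agent.X16.NW.windows_loc (Exc N c) (fun j => (ht j : ℝ)) hτ (s := ε) hε.le hθ0 hθ1
      hcount I f hf
    refine ⟨E, hE1, fun t ht1 htE => ?_⟩
    obtain ⟨n₀, hn⟩ := hE2 t ht1 htE
    exact ⟨n₀, fun n hn1 => finish (hn n hn1)⟩
  · obtain ⟨N, c, hc, hcount⟩ := count ((1 - θ) / 2) (by linarith)
    refine ⟨N, c, hc, fun κ hκ => ?_⟩
    have hall := Pool.Agent.X16.NW.ae_rpow (Exc N c) (fun j => (ht j : ℝ)) (s := (1 - θ) / 2) (by linarith)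
      hcount κ hκ θ hθ0 (by linarith)
    filter_upwards [hall] with t h ht1
    obtain ⟨n₀, hn⟩ := h ht1
    exact ⟨n₀, fun n hn1 => finish (hn n hn1)⟩
  · have h1 : 0 < 1 - θ := by linarith
    have ha0 : 0 < a := lt_trans (by positivity) ha
    have h2 : 1 / a < 1 - θ := by
      rw [div_lt_iff₀ ha0]
      rw [div_lt_iff₀ h1] at ha
      linarith
    set s : ℝ := (1 - θ - 1 / a) / 2 with hs
    have hs0 : 0 < s := by linarith
    obtain ⟨N, c, hc, hcount⟩ := count s hs0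
    refine ⟨N, c, hc, ?_⟩
    have hall := Pool.Agent.X16.NW.ae_npow (Exc N c) (fun j => (ht j : ℝ)) (s := s) hs0.le
      hcount θ hθ0 (by have : 0 < 1 / a := by positivity
                       linarith)
    filter_upwards [hall] with t h ht1
    obtain ⟨n₀, hn⟩ := h (by
      refine lt_of_le_of_lt ?_ ht1
      have h3 : 1 / a ≤ 1 - s - θ := by linarith
      have h4 : 0 < 1 / a := by positivity
      calc 1 / (1 - s - θ) ≤ 1 / (1 / a) := one_div_le_one_div_of_le h4 h3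
        _ = a := by rw [one_div_one_div])
    exact ⟨n₀, fun n hn1 => finish (hn n hn1)⟩

end Pool.Agent.Results.MP_cda23d_nt.RealPowers
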